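import Pool.Agent.X250.Sph.MonoWt

/-!
# The flag complex inequality with edge weights: monotonicity in the weights

Let `S` be the flag complex of the graph `G`, with edge weights `m_e` (integers `≥ 2`, or infinity) such that in each
face the edges of weight at least `3` are pairwise disjoint.  Then the group `W_σ` of a face is a product of dihedral
groups and groups of order two, its order is `2 ^ |σ| ∏ (m_e / 2)`, and with the parameters `c e = 1 - 2 / m_e`, which are
numbers between `0` (weight `2`) and `1` (weight infinity), the quantity `ω` is the sum of the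
`(-1/2)^|σ| ∏ (1 - c e)`.  We allow all real (here: rational) parameters.

`HSph (2 m) G`: the flag complex of `G` is a real homology manifold with the real homology of the `(2 m - 1)`-sphere.
`AM (2 m) G` is the class of graphs of the starting library; it contains the order complexes of the graded posets of
length `2 m` which are Gorenstein* over `F_2`, and it is closed under full subcomplexes, stellar subdivisions of edges,
joins, gluing along full subcomplexes of the class `2 m - 2`, and passing from the vertex links to the complex.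

For these spheres we show that `(-1)^m ω` is a combination with nonnegative coefficients of the products of the
parameters, so that it is monotone in the weights, with a lower bound for the growth and the case of equality, and that
it is at most the Charney-Davis quantity of the graph which one gets by deleting all edges of weight at least `3`.
-/

set_option autoImplicit false

namespace Pool.Agent.Results.MP_375bfa_co.MonotoneWeights

open Pool.Agent.X250.Sph Pool.Agent.TH652.Above
open Pool.Agent.W907.SG (L2Van chiW)
open Pool.Agent.W907.SM (lk)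
open Y365.FS (Dh)

open scoped Classical in
/-- Let the flag complex of `G` be a real homology `(2 m - 1)`-sphere of the class `AM (2 m)`.  Let `c e ≤ c' e` be
nonnegative parameters such that for any two edges of a face with a common vertex one of the two parameters `c'` is zero.
`om G c` is the sum of the `(-1/2)^|σ| ∏ (1 - c e)` over the faces `σ`, the product over the edges `e` of `σ`, and
`Dh c T` is the sum of the `(-1)^|T \ U| ∏ (1 - c e)` over the subsets `U` of `T`, the product over the edges of `U`.
(1) `(-1)^m om G c` is the sum of the `|Dh c T| |χ_T| / 2^|T|` over the faces `T`, where `χ_T` is the right-angled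
quantity (the Charney-Davis quantity) of the link of `T`; and `|Dh c T| ≤ |Dh c' T|`.
(2) `(-1)^m om G c' - (-1)^m om G c` is at least the sum of the `(c' e - c e) |χ_e| / 4` over the edges `e`; here
`χ_T = 0`, for `T` with an even number of vertices, if and only if all `ℓ²`-Betti numbers of the right-angled Coxeter
group of the link of `T` are zero.
(3) `om G c = om G c'` if and only if all `ℓ²`-Betti numbers of the right-angled Coxeter group of the link of `T` are
zero for all faces `T` with `Dh c T ≠ Dh c' T`.
(4) If `c e ≤ 1` for all `e` then `(-1)^m om G c` is at most `(-1)^m` times the right-angled quantity of the graph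
which one gets from `G` by deleting all edges with `c e ≠ 0`.
(5) If `c e = 1 - 2 / w e` with integers `w e ≥ 2` then `om G c` is the sum of the `(-1)^|σ| / (2^|σ| ∏ (w e / 2))`. -/
theorem result (m : ℕ) {V : Type} [Fintype V] [LinearOrder V] (G : SimpleGraph V) (hS : HSph (2 * m) G)
    (hA : AM (2 * m) G) (c c' : Finset V → ℚ) (hc : ∀ e, 0 ≤ c e ∧ c e ≤ c' e)
    (hd : ∀ T ∈ fcs G, ∀ u ∈ T, ∀ v ∈ T, ∀ z ∈ T, u ≠ v → u ≠ z → v ≠ z → c' {u, v} = 0 ∨ c' {u, z} = 0) :
    ((-1) ^ m * om G c = ∑ T ∈ fcs G, (1 / 2) ^ T.card * |Dh c T| * |chiW (G.induce (lk G T))| ∧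
      ∀ T ∈ fcs G, |Dh c T| ≤ |Dh c' T|) ∧
    ((-1) ^ m * om G c + ∑ e ∈ (fcs G).filter (fun e => e.card = 2), (c' e - c e) / 4 *
        |chiW (G.induce (lk G e))| ≤ (-1) ^ m * om G c' ∧
      ∀ T ∈ fcs G, Even T.card →
        (chiW (G.induce (lk G T)) = 0 ↔ ∀ i, L2Van (G.induce (lk G T)) i)) ∧
    (om G c = om G c' ↔ ∀ T ∈ fcs G, Dh c T ≠ Dh c' T → ∀ i, L2Van (G.induce (lk G T)) i) ∧
    ((∀ e, c e ≤ 1) → (-1) ^ m * om G c ≤ (-1) ^ m * chiW (lightGraph G c)) ∧
    ∀ w : Finset V → ℕ, (∀ e, 2 ≤ w e) → (∀ e, c e = 1 - 2 / (w e : ℚ)) →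
      om G c = ∑ σ ∈ fcs G, (-1) ^ σ.card / (2 ^ σ.card * ∏ e ∈ σ.powersetCard 2, (w e : ℚ) / 2) := by
  have hP : P (2 * m) G := P_of_AM hA
  have hd' : ∀ T ∈ fcs G, ∀ u ∈ T, ∀ v ∈ T, ∀ z ∈ T, u ≠ v → u ≠ z → v ≠ z → c {u, v} = 0 ∨ c {u, z} = 0 := by
    intro T hT u hu v hv z hz h1 h2 h3
    rcases hd T hT u hu v hv z hz h1 h2 h3 with h | h
    · exact Or.inl (le_antisymm (h ▸ (hc _).2) (hc _).1)
    · exact Or.inr (le_antisymm (h ▸ (hc _).2) (hc _).1)
  obtain ⟨h1, h2⟩ := om_mono hS hP hc hd
  refine ⟨⟨om_abs hS hP (fun e => (hc e).1) hd', fun T hT => (abs_Dh_mono hc hd hT).1⟩, ⟨h1, fun T hT he => ?_⟩,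
    h2, fun h3 => ?_, fun w hw hcw => ?_⟩
  · obtain ⟨j, hj⟩ := he
    have hT' := mem_fcs.1 hT
    have hcard := card_le_of_hSph hS T hT'
    exact (gap_lk hS hP T hT' (m - j) (by omega)).2.1.symm
  · have h4 : ∀ e, 0 ≤ c e ∧ c e ≤ (fun e => if c e = 0 then (0 : ℚ) else 1) e := by
      intro e
      refine ⟨(hc e).1, ?_⟩
      dsimp only
      split_ifs with h5
      · exact h5.le
      · exact h3 e
    obtain ⟨h5, -⟩ := om_mono hS hP h4 (fun T hT u hu v hv z hz k1 k2 k3 => by
      rcases hd' T hT u hu v hv z hz k1 k2 k3 with h | h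
      · exact Or.inl (if_pos h)
      · exact Or.inr (if_pos h))
    have h6 : 0 ≤ ∑ e ∈ (fcs G).filter (fun e => e.card = 2),
        ((fun e => if c e = 0 then (0 : ℚ) else 1) e - c e) / 4 * |chiW (G.induce (lk G e))| := by
      refine Finset.sum_nonneg fun e _ => ?_
      have h7 : 0 ≤ (fun e => if c e = 0 then (0 : ℚ) else 1) e - c e := sub_nonneg.2 (h4 e).2
      positivity
    have h8 := om_one (G := G) c
    rw [h8] at h5
    linarith
  · rw [← om_weights w hw]
    exact congrArg (om G) (funext hcw)

end Pool.Agent.Results.MP_375bfa_co.MonotoneWeights
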