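import Pool.Agent.X250.Sph.Cd
import Pool.Agent.Y365.FS.Wt2

/-!
# The flag complex inequality with Coxeter edge weights and the links of the edges

`HSph n G`: the flag complex of the graph `G` (its faces are the cliques of `G`) is a real homology manifold with the
real homology of the `(n - 1)`-sphere.  `lk G T` is the set of the common neighbours of `T`: the link of `T` is the
flag complex of the graph induced on `lk G T`.  `chiW H` is the sum of the `(-1/2)^|σ|` over the cliques `σ` of `H`.

We assume that the links of the edges of a flag real homology `(2 m + 1)`-sphere are in the class `AM (2 m)` (for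
example order complexes of Gorenstein* posets), and nothing about the complex itself or the links of its vertices.  We
determine the quantity of the question in terms of the right-angled case, and bound it from below by the numbers
`χ(W_{lk e})` for the edges `e`; the edges inside a full subcomplex `D` of dimension at most `m` enter with the good
sign.
-/

set_option autoImplicit false

namespace Pool.Agent.Results.MP_375bfa_co.WeightedEdgeLinks

open Pool.Agent.X250.Sph Pool.Agent.TH652.Above
open Pool.Agent.W907.SG (chiW)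
open Pool.Agent.W907.SM (lk LV)
open Pool.Agent.W497.FS (cl lam lkF)
open Y365.FS (bN GoodOrders weighted_eq)

open scoped Classical in
/-- the faces of the flag complex of `G` -/
noncomputable def faces {V : Type} [Fintype V] (G : SimpleGraph V) : Finset (Finset V) :=
  Finset.univ.filter fun T : Finset V => G.IsClique (T : Set V)

/-- the number `b T`: the sum of the `(-1/2)^|T \ U| / N U` over the subsets `U` of `T` -/
noncomputable def bb {V : Type} [DecidableEq V] (N : Finset V → ℚ) (T : Finset V) : ℚ :=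
  ∑ U ∈ T.powerset, (-1 / 2) ^ (T.card - U.card) / N U

/-- the numbers `N σ` have the properties (1)-(5) of the orders of the Coxeter groups `W_σ` of the
faces, `w e` being the weight of the edge `e`: (1) `N ∅ = 1`, (2) `N {v} = 2`, (3) `N e = 2 w e` for
each edge `e`, (4) `N (A ∪ B) = N A * N B` if `A ∪ B` is a face and all edges between `A` and `B` have
weight `2`, (5) for each face `T` with at least three vertices which is connected by edges of weight
different from `2`, the number `b T` is zero if `|T|` is odd and has the sign `(-1)^j`, or is zero, if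
`|T| = 2 j` -/
structure IsOrder {V : Type} [Fintype V] [DecidableEq V] (G : SimpleGraph V) (w : Finset V → ℕ)
    (N : Finset V → ℚ) : Prop where
  empty : N ∅ = 1
  vertex : ∀ v, N {v} = 2
  edge : ∀ e ∈ faces G, e.card = 2 → N e = 2 * w e
  mul : ∀ A B : Finset V, Disjoint A B → A ∪ B ∈ faces G →
    (∀ a ∈ A, ∀ b ∈ B, w {a, b} = 2) → N (A ∪ B) = N A * N B
  sign : ∀ T ∈ faces G, 3 ≤ T.card →
    (∀ A ⊆ T, A.Nonempty → A ≠ T → ∃ a ∈ A, ∃ b ∈ T, b ∉ A ∧ w {a, b} ≠ 2) →
    (Odd T.card → bb N T = 0) ∧ ∀ j, T.card = 2 * j → 0 ≤ (-1) ^ j * bb N T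

/-- the order `2^|σ| ∏ (w e / 2)` of the Coxeter group of `σ`, if the edges of `σ` of weight
`> 2` are pairwise disjoint -/
def ordW {V : Type} [DecidableEq V] (w : Finset V → ℕ) (σ : Finset V) : ℚ :=
  2 ^ σ.card * ∏ e ∈ σ.powersetCard 2, (w e : ℚ) / 2

section

variable {V : Type} [Fintype V] [LinearOrder V] {G : SimpleGraph V}

theorem faces_eq : faces G = cl G Finset.univ := by
  ext T
  rw [mem_cl_univ, faces]
  simp only [Finset.mem_filter, Finset.mem_univ, true_and]

theorem mem_faces {T : Finset V} : T ∈ faces G ↔ G.IsClique (T : Set V) := by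
  rw [faces_eq, mem_cl_univ]

omit [Fintype V] in
theorem ordW_empty (w : Finset V → ℕ) : ordW w ∅ = 1 := by
  have h0 : (∅ : Finset V).powersetCard 2 = ∅ := by
    rw [Finset.powersetCard_eq_empty]
    simp
  rw [ordW, h0]
  simp

omit [Fintype V] in
theorem ordW_vertex (w : Finset V → ℕ) (v : V) : ordW w {v} = 2 := by
  have h0 : ({v} : Finset V).powersetCard 2 = ∅ := by
    rw [Finset.powersetCard_eq_empty]
    simp
  rw [ordW, h0]
  simp

omit [Fintype V] in
theorem ordW_edge (w : Finset V → ℕ) {e : Finset V} (he : e.card = 2) : ordW w e = 2 * w e := by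
  have h0 : e.powersetCard 2 = {e} := by
    rw [← he, Finset.powersetCard_self]
  rw [ordW, h0, he, Finset.prod_singleton]
  ring

theorem good {w : Finset V → ℕ} {N : Finset V → ℚ} (hw : ∀ e ∈ faces G, e.card = 2 → 2 ≤ w e)
    (h : IsOrder G w N) : GoodOrders (cl G Finset.univ) N := by
  obtain ⟨h0, h1, h2, hmul, hsign⟩ := h
  rw [faces_eq] at *
  exact Y365.FS.goodOrders_of (fun T hT U hU => Pool.Agent.W497.FS.cl_of_subset hT hU) w hw N h0
    (fun v _ => h1 v) h2 hmul hsign

omit [Fintype V] in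
theorem bb_edge {w : Finset V → ℕ} {N : Finset V → ℚ} (h0 : N ∅ = 1) (h1 : ∀ v, N {v} = 2) {e : Finset V}
    (he : e.card = 2) (h2 : N e = 2 * w e) : bb N e = 1 / (2 * w e) - 1 / 4 := by
  classical
  obtain ⟨u, v, huv, rfl⟩ := Finset.card_eq_two.1 he
  have hu : u ∉ ({v} : Finset V) := by simpa using huv
  have hv : v ∉ (∅ : Finset V) := by simp
  have hp : ∀ f : Finset V → ℚ, ∑ t ∈ ({v} : Finset V).powerset, f t = f ∅ + f {v} := by
    intro f
    have e1 : ({v} : Finset V) = insert v ∅ := rfl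
    rw [e1, Finset.sum_powerset_insert hv, Finset.powerset_empty, Finset.sum_singleton, Finset.sum_singleton]
  unfold bb
  rw [Finset.sum_powerset_insert hu, hp, hp]
  have e3 : insert u (∅ : Finset V) = {u} := rfl
  rw [e3, h2, h1, h1, h0, he, Finset.card_empty, Finset.card_singleton, Finset.card_singleton]
  norm_num
  ring

open scoped Classical in
/-- the term of a face -/
theorem term {m : ℕ} (hS : HSph (2 * m + 2) G) (hP : FaceP m 2 G) {N : Finset V → ℚ}
    (hN : GoodOrders (cl G Finset.univ) N) (h0 : N ∅ = 1) {T : Finset V} (hT : T ∈ cl G Finset.univ) :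
    (-1) ^ (m + 1) * ((-1) ^ T.card * bN N T * lam G (lkF G Finset.univ T)) =
      (if T = ∅ then (-1) ^ (m + 1) * chiW G else 0) +
        (if 2 ≤ T.card then |bb N T| * |chiW (G.induce (lk G T))| else 0) := by
  have hb : bb N T = bN N T := rfl
  have hcard := card_le_of_hSph hS T (mem_cl_univ.1 hT)
  obtain ⟨g1, g2⟩ := hN T hT
  rw [lam_lk]
  by_cases hT0 : T = ∅
  · subst hT0
    rw [if_pos rfl, if_neg (by simp), chiW_congr lk_empty, chiW_univ]
    simp [bN, h0]
  · rw [if_neg hT0, zero_add]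
    rcases Nat.even_or_odd T.card with ⟨s, hs⟩ | ho
    · have hpos : 0 < T.card := Finset.card_pos.2 (Finset.nonempty_iff_ne_empty.2 hT0)
      rw [if_pos (by omega)]
      obtain ⟨l, hl⟩ : ∃ l, m + 1 = s + l := ⟨m + 1 - s, by omega⟩
      have h1 := g2 s (by omega)
      have h2 : 0 ≤ chiLk G l T := hP.cd hS (mem_cl_univ.1 hT) (by omega) (by omega)
      have h3 : |bb N T| = (-1) ^ s * bN N T := by
        rw [hb, ← abs_of_nonneg h1, abs_mul, abs_pow, abs_neg, abs_one, one_pow, one_mul]
      have h4 : |chiW (G.induce (lk G T))| = (-1) ^ l * chiW (G.induce (lk G T)) := by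
        unfold chiLk at h2
        rw [← abs_of_nonneg h2, abs_mul, abs_pow, abs_neg, abs_one, one_pow, one_mul]
      have h5 : (-1 : ℚ) ^ T.card = 1 := by rw [hs]; exact Even.neg_one_pow ⟨s, rfl⟩
      rw [h3, h4, h5, hl, pow_add]
      ring
    · rw [hb, g1 ho]
      simp

open scoped Classical in
/-- the identity -/
theorem identity {m : ℕ} (hS : HSph (2 * m + 2) G) (hP : FaceP m 2 G) {N : Finset V → ℚ}
    (hN : GoodOrders (cl G Finset.univ) N) (h0 : N ∅ = 1) :
    (-1) ^ (m + 1) * ∑ σ ∈ faces G, (-1) ^ σ.card / N σ = (-1) ^ (m + 1) * chiW G +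
      ∑ T ∈ (faces G).filter (fun T : Finset V => 2 ≤ T.card), |bb N T| * |chiW (G.induce (lk G T))| := by
  rw [faces_eq, weighted_eq, Finset.mul_sum, Finset.sum_congr rfl fun T hT => term hS hP hN h0 hT,
    Finset.sum_add_distrib, Finset.sum_ite_eq', if_pos Pool.Agent.W497.FS.empty_mem_cl, ← Finset.sum_filter]

open scoped Classical in
/-- the general form -/
theorem general {m : ℕ} (hS : HSph (2 * m + 2) G) (hP : FaceP m 2 G) {D : Set V} (hD : LV (G.induce D) (m + 2))
    {w : Finset V → ℕ} {N : Finset V → ℚ} (hN : GoodOrders (cl G Finset.univ) N) (h0 : N ∅ = 1)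
    (h1 : ∀ v, N {v} = 2) (h2 : ∀ e ∈ faces G, e.card = 2 → N e = 2 * w e)
    (hw : ∀ e ∈ faces G, e.card = 2 → 2 ≤ w e) :
    (-1) ^ (m + 1) * ∑ σ ∈ faces G, (-1) ^ σ.card / N σ = (-1) ^ (m + 1) * chiW G +
      ∑ T ∈ (faces G).filter (fun T : Finset V => 2 ≤ T.card), |bb N T| * |chiW (G.induce (lk G T))| ∧
    ∑ T ∈ (faces G).filter (fun T : Finset V => 3 ≤ T.card), |bb N T| * |chiW (G.induce (lk G T))| +
        ∑ e ∈ (faces G).filter (fun e : Finset V => e.card = 2 ∧ (e : Set V) ⊆ D),
          (1 / 4 - 1 / (2 * w e)) * |chiW (G.induce (lk G e))| -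
        ∑ e ∈ (faces G).filter (fun e : Finset V => e.card = 2 ∧ ¬ (e : Set V) ⊆ D),
          (1 / 4 + 1 / (2 * w e)) * |chiW (G.induce (lk G e))| ≤
      (-1) ^ (m + 1) * ∑ σ ∈ faces G, (-1) ^ σ.card / N σ ∧
    ((∀ e ∈ faces G, e.card = 2 → ¬ (e : Set V) ⊆ D → chiW (G.induce (lk G e)) = 0) →
      0 ≤ (-1) ^ (m + 1) * chiW G ∧
      (-1) ^ (m + 1) * chiW G ≤ (-1) ^ (m + 1) * ∑ σ ∈ faces G, (-1) ^ σ.card / N σ ∧
      (∑ σ ∈ faces G, (-1) ^ σ.card / N σ = 0 ↔
        chiW G = 0 ∧ ∀ T ∈ faces G, 2 ≤ T.card → bb N T ≠ 0 → chiW (G.induce (lk G T)) = 0)) := by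
  have hid := identity hS hP hN h0
  have hoff : facesOff G 2 D = (faces G).filter (fun e : Finset V => e.card = 2 ∧ ¬ (e : Set V) ⊆ D) := by
    ext T
    rw [mem_facesOff, Finset.mem_filter, mem_faces]
  have hed := hP.edge hS D hD
  have habs : ∀ e ∈ faces G, e.card = 2 → chiLk G m e = |chiW (G.induce (lk G e))| := by
    intro e he hc
    have h3 : 0 ≤ chiLk G m e := hP.cd hS (by
      rw [faces_eq, mem_cl_univ] at he
      exact he) (by omega) (by omega)
    unfold chiLk at h3 ⊢
    rw [← abs_of_nonneg h3, abs_mul, abs_pow, abs_neg, abs_one, one_pow, one_mul]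
  have hed2 : 0 ≤ (-1 : ℚ) ^ (m + 1) * chiW G + 1 / 2 *
      ∑ e ∈ (faces G).filter (fun e : Finset V => e.card = 2 ∧ ¬ (e : Set V) ⊆ D), |chiW (G.induce (lk G e))| := by
    rw [hoff] at hed
    refine hed.trans (le_of_eq ?_)
    congr 2
    refine Finset.sum_congr rfl fun e he => ?_
    obtain ⟨h3, h4, _⟩ := Finset.mem_filter.1 he
    exact habs e h3 h4
  have hbe : ∀ e ∈ faces G, e.card = 2 → |bb N e| = 1 / 4 - 1 / (2 * w e) := by
    intro e he hc
    have h3 : (2 : ℚ) ≤ w e := by exact_mod_cast hw e he hc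
    have h4 : 1 / (2 * (w e : ℚ)) ≤ 1 / 4 := by
      rw [div_le_div_iff₀ (by linarith) (by norm_num)]
      linarith
    rw [bb_edge h0 h1 hc (h2 e he hc), abs_of_nonpos (by linarith)]
    ring
  refine ⟨hid, ?_, fun hz => ?_⟩
  · rw [hid]
    have h5 : ∑ T ∈ (faces G).filter (fun T : Finset V => 3 ≤ T.card), |bb N T| * |chiW (G.induce (lk G T))| +
        ∑ e ∈ (faces G).filter (fun e : Finset V => e.card = 2 ∧ (e : Set V) ⊆ D),
          (1 / 4 - 1 / (2 * w e)) * |chiW (G.induce (lk G e))| -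
        ∑ e ∈ (faces G).filter (fun e : Finset V => e.card = 2 ∧ ¬ (e : Set V) ⊆ D),
          (1 / 4 + 1 / (2 * w e)) * |chiW (G.induce (lk G e))| =
        ∑ T ∈ (faces G).filter (fun T : Finset V => 2 ≤ T.card), |bb N T| * |chiW (G.induce (lk G T))| - 1 / 2 *
      ∑ e ∈ (faces G).filter (fun e : Finset V => e.card = 2 ∧ ¬ (e : Set V) ⊆ D), |chiW (G.induce (lk G e))| := by
      rw [Finset.sum_filter, Finset.sum_filter, Finset.sum_filter, Finset.sum_filter, Finset.sum_filter,
        Finset.mul_sum, ← Finset.sum_add_distrib, ← Finset.sum_sub_distrib, ← Finset.sum_sub_distrib]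
      refine Finset.sum_congr rfl fun T hT => ?_
      by_cases h3 : 3 ≤ T.card
      · rw [if_pos h3, if_neg (fun h => by omega), if_neg (fun h => by omega), if_pos (by omega),
          if_neg (fun h => by omega)]
        ring
      · by_cases h4 : T.card = 2
        · by_cases h6 : (T : Set V) ⊆ D
          · rw [if_neg h3, if_pos ⟨h4, h6⟩, if_neg (fun h => h.2 h6), if_pos (by omega),
              if_neg (fun h => h.2 h6), hbe T hT h4]
            ring
          · rw [if_neg h3, if_neg (fun h => h6 h.2), if_pos ⟨h4, h6⟩, if_pos (by omega), if_pos ⟨h4, h6⟩,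
              hbe T hT h4]
            ring
        · rw [if_neg h3, if_neg (fun h => h4 h.1), if_neg (fun h => h4 h.1), if_neg (by omega),
            if_neg (fun h => h4 h.1)]
          ring
    rw [h5]
    linarith
  · have h3 : 0 ≤ (-1 : ℚ) ^ (m + 1) * chiW G := by
      rw [Finset.sum_eq_zero (fun e he => by
        obtain ⟨h3, h4, h5⟩ := Finset.mem_filter.1 he
        rw [hz e h3 h4 h5, abs_zero])] at hed2
      linarith
    have hnn : ∀ T ∈ (faces G).filter (fun T : Finset V => 2 ≤ T.card), 0 ≤ |bb N T| * |chiW (G.induce (lk G T))| :=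
      fun T _ => mul_nonneg (abs_nonneg _) (abs_nonneg _)
    have h4 := Finset.sum_nonneg hnn
    refine ⟨h3, by rw [hid]; linarith, ?_⟩
    have h5 : ∑ σ ∈ faces G, (-1) ^ σ.card / N σ = 0 ↔
        (-1) ^ (m + 1) * ∑ σ ∈ faces G, (-1) ^ σ.card / N σ = 0 := by
      rw [mul_eq_zero, or_iff_right (pow_ne_zero _ (by norm_num))]
    rw [h5, hid]
    constructor
    · intro h6
      have h7 : (-1 : ℚ) ^ (m + 1) * chiW G = 0 := by linarith
      have h8 : ∑ T ∈ (faces G).filter (fun T : Finset V => 2 ≤ T.card), |bb N T| * |chiW (G.induce (lk G T))| = 0 := by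
        linarith
      refine ⟨(mul_eq_zero.1 h7).resolve_left (pow_ne_zero _ (by norm_num)), fun T hT hc hb => ?_⟩
      have h9 := (Finset.sum_eq_zero_iff_of_nonneg hnn).1 h8 T (Finset.mem_filter.2 ⟨hT, hc⟩)
      rcases mul_eq_zero.1 h9 with h10 | h10
      · exact absurd (abs_eq_zero.1 h10) hb
      · exact abs_eq_zero.1 h10
    · rintro ⟨h6, h7⟩
      rw [h6, mul_zero, zero_add]
      refine Finset.sum_eq_zero fun T hT => ?_
      obtain ⟨h8, h9⟩ := Finset.mem_filter.1 hT
      by_cases hb : bb N T = 0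
      · rw [hb, abs_zero, zero_mul]
      · rw [h7 T h8 h9 hb, abs_zero, mul_zero]

end

open scoped Classical in
/-- Let `G` be the 1-skeleton of a flag real homology `(2 m + 1)`-sphere such that the links of all edges are in the
class `AM (2 m)`, and let `D` be a set of vertices which contains no face with more than `m + 1` vertices.  Let `w e`
be weights of the edges, at least `2`, and let `N σ` be the orders of the Coxeter groups `W_σ`: either any numbers
with the properties (1)-(5) of `IsOrder`, or `2^|σ| ∏ (w e / 2)` if in each face the edges of weight at least `3` are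
pairwise disjoint (and all `w e` are at least `2`).  Put `ω = ∑ (-1)^|σ| / N σ` (the sum over all faces) and
`χ_T = chiW (G.induce (lk G T))`; so `χ_∅ = chiW G` is the value of `ω` for the weights `2`.
(1) `(-1)^(m+1) ω` is `(-1)^(m+1) chiW G` plus the sum of `|b T| |χ_T|` over the faces `T` with at least two
vertices.
(2) `(-1)^(m+1) ω` is at least the sum of `|b T| |χ_T|` over the faces `T` with at least three vertices plus the sum
of `(1/4 - 1/(2 w e)) |χ_e|` over the edges `e` inside `D`, minus the sum of `(1/4 + 1/(2 w e)) |χ_e|` over the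
other edges.
(3) If `χ_e = 0` for all edges which are not inside `D` then `0 ≤ (-1)^(m+1) chiW G ≤ (-1)^(m+1) ω`, and `ω = 0` if
and only if `chiW G = 0` and `χ_T = 0` for all faces `T` with at least two vertices and `b T ≠ 0`. -/
theorem result (m : ℕ) {V : Type} [Fintype V] [LinearOrder V] (G : SimpleGraph V) (D : Set V)
    (hS : HSph (2 * m + 2) G)
    (hA : ∀ e : Finset V, G.IsClique (e : Set V) → e.card = 2 → AM (2 * m) (G.induce (lk G e)))
    (hD : ∀ T : Finset V, G.IsClique (T : Set V) → (T : Set V) ⊆ D → T.card ≤ m + 1)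
    (w : Finset V → ℕ) (N : Finset V → ℚ)
    (hN : ((∀ e ∈ faces G, e.card = 2 → 2 ≤ w e) ∧ IsOrder G w N) ∨
      ((∀ e, 2 ≤ w e) ∧ (∀ T ∈ faces G, ∀ u ∈ T, ∀ v ∈ T, ∀ z ∈ T, u ≠ v → u ≠ z → v ≠ z →
        w {u, v} = 2 ∨ w {u, z} = 2) ∧ N = ordW w)) :
    (-1) ^ (m + 1) * ∑ σ ∈ faces G, (-1) ^ σ.card / N σ = (-1) ^ (m + 1) * chiW G +
      ∑ T ∈ (faces G).filter (fun T : Finset V => 2 ≤ T.card), |bb N T| * |chiW (G.induce (lk G T))| ∧
    ∑ T ∈ (faces G).filter (fun T : Finset V => 3 ≤ T.card), |bb N T| * |chiW (G.induce (lk G T))| +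
        ∑ e ∈ (faces G).filter (fun e : Finset V => e.card = 2 ∧ (e : Set V) ⊆ D),
          (1 / 4 - 1 / (2 * w e)) * |chiW (G.induce (lk G e))| -
        ∑ e ∈ (faces G).filter (fun e : Finset V => e.card = 2 ∧ ¬ (e : Set V) ⊆ D),
          (1 / 4 + 1 / (2 * w e)) * |chiW (G.induce (lk G e))| ≤
      (-1) ^ (m + 1) * ∑ σ ∈ faces G, (-1) ^ σ.card / N σ ∧
    ((∀ e ∈ faces G, e.card = 2 → ¬ (e : Set V) ⊆ D → chiW (G.induce (lk G e)) = 0) →
      0 ≤ (-1) ^ (m + 1) * chiW G ∧
      (-1) ^ (m + 1) * chiW G ≤ (-1) ^ (m + 1) * ∑ σ ∈ faces G, (-1) ^ σ.card / N σ ∧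
      (∑ σ ∈ faces G, (-1) ^ σ.card / N σ = 0 ↔
        chiW G = 0 ∧ ∀ T ∈ faces G, 2 ≤ T.card → bb N T ≠ 0 → chiW (G.induce (lk G T)) = 0)) := by
  have hP : FaceP m 2 G := fun T hT hT' => P_of_AM (hA T hT hT')
  have hD' : LV (G.induce D) (m + 2) := lv_small fun T hT hTD => by
    have := hD T hT hTD
    omega
  rcases hN with ⟨hw, hN⟩ | ⟨hw, hm, rfl⟩
  · exact general hS hP hD' (good hw hN) hN.empty hN.vertex hN.edge hw
  · rw [faces_eq] at hm
    exact general hS hP hD' (N := ordW w) (Y365.FS.goodOrders_ordM w hw hm) (ordW_empty w) (ordW_vertex w)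
      (fun e _ he => ordW_edge w he) (fun e _ _ => hw e)

end Pool.Agent.Results.MP_375bfa_co.WeightedEdgeLinks
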