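import Pool.Agent.X250.Sph.Par2
import Pool.Agent.Y365.FS.Wt2

/-!
# The flag complex inequality with Coxeter edge weights, with a Morse criterion for the links

`HSph n G`: the flag complex of the graph `G` (its faces are the cliques of `G`) is a real homology manifold with the
real homology of the `(n - 1)`-sphere.  `lk G T` is the set of the common neighbours of `T`: the link of `T` is the
flag complex of the graph induced on `lk G T`.  `chiW H` is the sum of the `(-1/2)^|σ|` over the cliques `σ` of `H`, and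
`L2Van H i` says that the `i`-th `ℓ²`-Betti number of the right-angled Coxeter group of `H` is zero.

A *slope* of `G` on a finite set `X` consists of involutions `a v` of `X` for the vertices `v`, commuting for adjacent
vertices, and of directions of the edges from `x` to `a v x`, such that opposite edges of squares are parallel (for
example a legal system in the sense of Jankiewicz-Norin-Wise).  Its descending links are the full subcomplexes spanned
by the sets `down x`.
-/

set_option autoImplicit false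

namespace Pool.Agent.Results.MP_375bfa_co.WeightedSlopes

open Pool.Agent.X250.Sph Pool.Agent.TH652.Above
open Pool.Agent.W907.SG (L2Van chiW beta)
open Pool.Agent.W907.SM (lk)
open Pool.Agent.W497.FS (cl lam lkF)
open Pool.Agent.TH652.Dual (triv)
open Y365.FS (bN GoodOrders weighted_eq)

open scoped Classical in
/-- the faces of the flag complex of `G` -/
noncomputable def faces {V : Type} [Fintype V] (G : SimpleGraph V) : Finset (Finset V) :=
  Finset.univ.filter fun T : Finset V => G.IsClique (T : Set V)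

/-- the number `b T`: the sum of the `(-1/2)^|T \ U| / N U` over the subsets `U` of `T` -/
noncomputable def bb {V : Type} [DecidableEq V] (N : Finset V → ℚ) (T : Finset V) : ℚ :=
  ∑ U ∈ T.powerset, (-1 / 2) ^ (T.card - U.card) / N U

/-- the numbers `N σ` have the properties (1)-(5) of the orders of the Coxeter groups `W_σ` of the
faces, `w e` being the weight of the edge `e`: (1) `N ∅ = 1`, (2) `N {v} = 2`, (3) `N e = 2 w e` for
each edge `e`, (4) `N (A ∪ B) = N A * N B` if `A ∪ B` is a face and all edges between `A` and `B` have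
weight `2`, (5) for each face `T` with at least three vertices which is connected by edges of weight
different from `2`, the number `b T` is zero if `|T|` is odd and has the sign `(-1)^j`, or is zero, if
`|T| = 2 j` -/
structure IsOrder {V : Type} [Fintype V] [DecidableEq V] (G : SimpleGraph V) (w : Finset V → ℕ)
    (N : Finset V → ℚ) : Prop where
  empty : N ∅ = 1
  vertex : ∀ v, N {v} = 2
  edge : ∀ e ∈ faces G, e.card = 2 → N e = 2 * w e
  mul : ∀ A B : Finset V, Disjoint A B → A ∪ B ∈ faces G →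
    (∀ a ∈ A, ∀ b ∈ B, w {a, b} = 2) → N (A ∪ B) = N A * N B
  sign : ∀ T ∈ faces G, 3 ≤ T.card →
    (∀ A ⊆ T, A.Nonempty → A ≠ T → ∃ a ∈ A, ∃ b ∈ T, b ∉ A ∧ w {a, b} ≠ 2) →
    (Odd T.card → bb N T = 0) ∧ ∀ j, T.card = 2 * j → 0 ≤ (-1) ^ j * bb N T

/-- the order `2^|σ| ∏ (w e / 2)` of the Coxeter group of `σ`, if the edges of `σ` of weight
`> 2` are pairwise disjoint -/
def ordW {V : Type} [DecidableEq V] (w : Finset V → ℕ) (σ : Finset V) : ℚ :=
  2 ^ σ.card * ∏ e ∈ σ.powersetCard 2, (w e : ℚ) / 2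

section

variable {V : Type} [Fintype V] [LinearOrder V] {G : SimpleGraph V}

theorem faces_eq : faces G = cl G Finset.univ := by
  ext T
  rw [mem_cl_univ, faces]
  simp only [Finset.mem_filter, Finset.mem_univ, true_and]

omit [Fintype V] in
theorem ordW_empty (w : Finset V → ℕ) : ordW w ∅ = 1 := by
  have h0 : (∅ : Finset V).powersetCard 2 = ∅ := by
    rw [Finset.powersetCard_eq_empty]
    simp
  rw [ordW, h0]
  simp

theorem good {w : Finset V → ℕ} {N : Finset V → ℚ} (hw : ∀ e ∈ faces G, e.card = 2 → 2 ≤ w e)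
    (h : IsOrder G w N) : GoodOrders (cl G Finset.univ) N := by
  obtain ⟨h0, h1, h2, hmul, hsign⟩ := h
  rw [faces_eq] at *
  exact Y365.FS.goodOrders_of (fun T hT U hU => Pool.Agent.W497.FS.cl_of_subset hT hU) w hw N h0
    (fun v _ => h1 v) h2 hmul hsign

open scoped Classical in
/-- the term of a face -/
theorem term {m : ℕ} (hS : HSph (2 * m) G)
    (hO : ∀ T : Finset V, G.IsClique (T : Set V) → ∀ l, 2 * l + T.card = 2 * m → ∀ i, Odd (i + l) →
      L2Van (G.induce (lk G T)) i) {N : Finset V → ℚ}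
    (hN : GoodOrders (cl G Finset.univ) N) {T : Finset V} (hT : T ∈ cl G Finset.univ) :
    0 ≤ (-1) ^ m * ((-1) ^ T.card * bN N T * lam G (lkF G Finset.univ T)) ∧
    ((-1) ^ m * ((-1) ^ T.card * bN N T * lam G (lkF G Finset.univ T)) = 0 ↔
      (bN N T ≠ 0 → ∀ i, L2Van (G.induce (lk G T)) i)) ∧
    (¬ (∀ i, L2Van (G.induce (lk G T)) i) →
      |bN N T| / 2 ^ (2 * m - T.card) ≤
        (-1) ^ m * ((-1) ^ T.card * bN N T * lam G (lkF G Finset.univ T))) := by
  have hcl := mem_cl_univ.1 hT
  have hcard := card_le_of_hSph hS T hcl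
  obtain ⟨g1, g2⟩ := hN T hT
  rcases Nat.even_or_odd T.card with ⟨j, hj⟩ | ho
  · obtain ⟨l, hl⟩ : ∃ l, m = j + l := ⟨m - j, by omega⟩
    have hO' := hO T hcl l (by omega)
    have k1 := parity_sign hO'
    have k2 := parity_iff hO'
    have k3 : ¬ (∀ i, L2Van (G.induce (lk G T)) i) → 1 ≤ 4 ^ l * ((-1) ^ l * chiW (G.induce (lk G T))) := by
      intro h3
      have h4 : chiW (G.induce (lk G T)) ≠ 0 := fun h5 => h3 (k2.2 h5)
      obtain ⟨z, hz⟩ := exists_int (G := G.induce (lk G T)) (m := l) (hSph_congr (by omega) (hSph_lk hS T hcl))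
      have h5 : (0 : ℚ) < 4 ^ l * ((-1) ^ l * chiW (G.induce (lk G T))) := by
        have h6 : (-1 : ℚ) ^ l * chiW (G.induce (lk G T)) ≠ 0 := mul_ne_zero (pow_ne_zero _ (by norm_num)) h4
        exact mul_pos (by positivity) (lt_of_le_of_ne k1 h6.symm)
      have h6 : (4 : ℚ) ^ l * ((-1) ^ l * chiW (G.induce (lk G T))) = (((-1) ^ l * z : ℤ) : ℚ) := by
        push_cast
        rw [← hz]
        ring
      rw [h6] at h5 ⊢
      have h7 : (0 : ℤ) < (-1) ^ l * z := by exact_mod_cast h5
      exact_mod_cast h7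
    rw [lam_lk]
    have h1 := g2 j (by omega)
    have h4 : (-1 : ℚ) ^ T.card = 1 := by rw [hj]; exact Even.neg_one_pow ⟨j, rfl⟩
    have h3 : (-1 : ℚ) ^ m * ((-1) ^ T.card * bN N T * chiW (G.induce (lk G T))) =
        ((-1) ^ j * bN N T) * ((-1) ^ l * chiW (G.induce (lk G T))) := by
      rw [h4, hl, pow_add]
      ring
    rw [h3]
    refine ⟨mul_nonneg h1 k1, ?_, fun h5 => ?_⟩
    · rw [mul_eq_zero, mul_eq_zero, mul_eq_zero, or_iff_right (pow_ne_zero _ (by norm_num)),
        or_iff_right (pow_ne_zero _ (by norm_num)), k2]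
      tauto
    · have h6 := k3 h5
      have h7 : |bN N T| = (-1) ^ j * bN N T := by
        rw [← abs_of_nonneg h1, abs_mul, abs_pow, abs_neg, abs_one, one_pow, one_mul]
      have h8 : (2 : ℚ) ^ (2 * m - T.card) = 4 ^ l := by
        rw [show 2 * m - T.card = 2 * l by omega, pow_mul]
        norm_num
      rw [h7, h8, div_le_iff₀ (by positivity)]
      calc (-1 : ℚ) ^ j * bN N T = ((-1) ^ j * bN N T) * 1 := (mul_one _).symm
        _ ≤ ((-1) ^ j * bN N T) * (4 ^ l * ((-1) ^ l * chiW (G.induce (lk G T)))) :=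
            mul_le_mul_of_nonneg_left h6 h1
        _ = _ := by ring
  · rw [g1 ho]
    simp

open scoped Classical in
/-- the general form -/
theorem general {m : ℕ} (hS : HSph (2 * m) G)
    (hO : ∀ T : Finset V, G.IsClique (T : Set V) → ∀ l, 2 * l + T.card = 2 * m → ∀ i, Odd (i + l) →
      L2Van (G.induce (lk G T)) i) {N : Finset V → ℚ}
    (hN : GoodOrders (cl G Finset.univ) N) (h0 : N ∅ = 1) :
    0 ≤ (-1) ^ m * chiW G ∧
    (-1) ^ m * chiW G ≤ (-1) ^ m * ∑ σ ∈ faces G, (-1) ^ σ.card / N σ ∧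
    ∑ T ∈ (faces G).filter (fun T : Finset V => ∃ i, ¬ L2Van (G.induce (lk G T)) i),
        |bb N T| / 2 ^ (2 * m - T.card) ≤ (-1) ^ m * ∑ σ ∈ faces G, (-1) ^ σ.card / N σ ∧
    (∑ σ ∈ faces G, (-1) ^ σ.card / N σ = 0 ↔
      ∀ T ∈ faces G, bb N T ≠ 0 → ∀ i, L2Van (G.induce (lk G T)) i) := by
  rw [faces_eq]
  have hsum : (-1) ^ m * ∑ σ ∈ cl G Finset.univ, (-1) ^ σ.card / N σ =
      ∑ T ∈ cl G Finset.univ, (-1) ^ m * ((-1) ^ T.card * bN N T * lam G (lkF G Finset.univ T)) := by
    rw [weighted_eq, Finset.mul_sum]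
  have hnn : ∀ T ∈ cl G Finset.univ,
      0 ≤ (-1) ^ m * ((-1) ^ T.card * bN N T * lam G (lkF G Finset.univ T)) := fun T hT =>
    (term hS hO hN hT).1
  have hemp : (∅ : Finset V) ∈ cl G Finset.univ := Pool.Agent.W497.FS.empty_mem_cl
  have h1 : (-1) ^ m * ((-1) ^ (∅ : Finset V).card * bN N ∅ * lam G (lkF G Finset.univ ∅)) =
      (-1) ^ m * chiW G := by
    rw [lam_lk, chiW_congr lk_empty, chiW_univ]
    simp [bN, h0]
  refine ⟨?_, ?_, ?_, ?_⟩
  · rw [← h1]
    exact hnn ∅ hemp
  · rw [hsum, ← h1]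
    exact Finset.single_le_sum hnn hemp
  · rw [hsum, Finset.sum_filter]
    refine Finset.sum_le_sum fun T hT => ?_
    split_ifs with h
    · exact (term hS hO hN hT).2.2 (by push Not; exact h)
    · exact hnn T hT
  · have h2 : ∑ σ ∈ cl G Finset.univ, (-1) ^ σ.card / N σ = 0 ↔
        (-1) ^ m * ∑ σ ∈ cl G Finset.univ, (-1) ^ σ.card / N σ = 0 := by
      rw [mul_eq_zero, or_iff_right (pow_ne_zero _ (by norm_num))]
    rw [h2, hsum, Finset.sum_eq_zero_iff_of_nonneg hnn]
    exact forall₂_congr fun T hT => (term hS hO hN hT).2.1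

end

open scoped Classical in
/-- Let `2 m = 2 j + k`, let `G` be the 1-skeleton of a flag real homology `(2 m - 1)`-sphere, and suppose that, if
`2 ≤ j`, the links of the faces with `k` vertices are in the class `AM (2 j)`.  Suppose that for each face `T` with
`|T| < k` and `|T| = 2 m - 2 l` even, and for each `i` with `l < i ≤ j + k - |T|` and `i - l` odd, there is a slope of
the link of `T` on a nonempty finite set `X` such that the `(i - 1)`-st reduced real homology of the full
subcomplexes of the link spanned by `down x` vanishes for all `x` in `X`.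
Let `w e` be weights of the edges, at least `2`, and let `N σ` be the orders of the Coxeter groups `W_σ`: either any
numbers with the properties (1)-(5) of `IsOrder`, or `2^|σ| ∏ (w e / 2)` if in each face the edges of weight at least
`3` are pairwise disjoint (and all `w e` are at least `2`).  Put `ω = ∑ (-1)^|σ| / N σ` (the sum over all faces).
Then `(-1)^m ω` is at least the nonnegative number `(-1)^m chiW G` which belongs to the weights `2`; it is at least the
sum of the `|b T| / 2^(2 m - |T|)` over the faces `T` for which the right-angled Coxeter group of the link of `T` has a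
nonzero `ℓ²`-Betti number; and `ω = 0` if and only if there is no such face with `b T ≠ 0`. -/
theorem result (j k m : ℕ) {V : Type} [Fintype V] [LinearOrder V] (G : SimpleGraph V)
    (hm : 2 * j + k = 2 * m) (hS : HSph (2 * m) G)
    (hA : 2 ≤ j → ∀ T : Finset V, G.IsClique (T : Set V) → T.card = k → AM (2 * j) (G.induce (lk G T)))
    (hs : ∀ T : Finset V, G.IsClique (T : Set V) → T.card < k → ∀ l : ℕ, 2 * l + T.card = 2 * m →
      ∀ i : ℕ, l < i → i ≤ j + k - T.card → Odd (i + l) →
        ∃ (X : Type) (_ : Fintype X) (_ : Nonempty X) (s : Slope (G.induce (lk G T)) X),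
          ∀ x, beta (G.induce (lk G T)) (triv ↥(lk G T)) (s.down x) ∅ i = 0)
    (w : Finset V → ℕ) (N : Finset V → ℚ)
    (hN : ((∀ e ∈ faces G, e.card = 2 → 2 ≤ w e) ∧ IsOrder G w N) ∨
      ((∀ e, 2 ≤ w e) ∧ (∀ T ∈ faces G, ∀ u ∈ T, ∀ v ∈ T, ∀ z ∈ T, u ≠ v → u ≠ z → v ≠ z →
        w {u, v} = 2 ∨ w {u, z} = 2) ∧ N = ordW w)) :
    0 ≤ (-1) ^ m * chiW G ∧
    (-1) ^ m * chiW G ≤ (-1) ^ m * ∑ σ ∈ faces G, (-1) ^ σ.card / N σ ∧
    ∑ T ∈ (faces G).filter (fun T : Finset V => ∃ i, ¬ L2Van (G.induce (lk G T)) i),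
        |bb N T| / 2 ^ (2 * m - T.card) ≤ (-1) ^ m * ∑ σ ∈ faces G, (-1) ^ σ.card / N σ ∧
    (∑ σ ∈ faces G, (-1) ^ σ.card / N σ = 0 ↔
      ∀ T ∈ faces G, bb N T ≠ 0 → ∀ i, L2Van (G.induce (lk G T)) i) := by
  have hP : FaceP j k G := FaceP.of (hSph_congr hm.symm hS) hA
  have hO : ∀ T : Finset V, G.IsClique (T : Set V) → ∀ l, 2 * l + T.card = 2 * m → ∀ i, Odd (i + l) →
      L2Van (G.induce (lk G T)) i := fun T hT l hl i hi => hP.parity_lk hm hS hT hl
    (fun h1 i h2 h3 h4 => HasSlope.l2van (hs T hT h1 l hl i h2 h4 h3)) i hi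
  rcases hN with ⟨hw, hN⟩ | ⟨hw, hd, rfl⟩
  · exact general hS hO (good hw hN) hN.empty
  · rw [faces_eq] at hd
    exact general hS hO (N := ordW w) (Y365.FS.goodOrders_ordM w hw hd) (ordW_empty w)

end Pool.Agent.Results.MP_375bfa_co.WeightedSlopes
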