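import Pool.Agent.X250.Sph.Links
import Pool.Agent.Y365.FS.Wt2

/-!
# The flag complex inequality with Coxeter edge weights for the spheres of the class `AM`

`HSph (2 m) G`: the flag complex of the graph `G` (its faces are the cliques of `G`) is a real
homology manifold with the real homology of the `(2 m - 1)`-sphere.

`AM (2 m) G` is the class of graphs of the starting library (`Pool.Agent.TH652`).  It contains the
order complexes of the graded posets of length `2 m` which are Gorenstein* over `F_2` (for example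
all barycentric subdivisions of triangulated spheres), and is closed under full subcomplexes, stellar
subdivision of edges, joins (the numbers add up), gluing along full subcomplexes of the class
`2 m - 2`, and under passing from the vertex links to the complex.

`L2Van G i`: there are no nonzero `ℓ²` harmonic `i`-chains on the Davis complex of the right-angled
Coxeter group `W G`, that is, the `i`-th `ℓ²`-Betti number of `W G` is zero.  `lk G T` is the set of
the common neighbours of `T`: the link of `T` is the flag complex of the graph induced on `lk G T`.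
`chiW G` is the sum of the `(-1/2)^|σ|` over the faces, the right-angled case of the quantity.
-/

set_option autoImplicit false

namespace Pool.Agent.Results.MP_375bfa_co.WeightsClassAM

open Pool.Agent.X250.Sph Pool.Agent.TH652.Above
open Pool.Agent.W907.SG (L2Van chiW)
open Pool.Agent.W907.SM (lk)
open Pool.Agent.W497.FS (cl lam lkF)
open Y365.FS (bN GoodOrders weighted_eq)

open scoped Classical in
/-- the faces of the flag complex of `G` -/
noncomputable def faces {V : Type} [Fintype V] (G : SimpleGraph V) : Finset (Finset V) :=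
  Finset.univ.filter fun T : Finset V => G.IsClique (T : Set V)

/-- the number `b T`: the sum of the `(-1/2)^|T \ U| / N U` over the subsets `U` of `T` -/
noncomputable def bb {V : Type} [DecidableEq V] (N : Finset V → ℚ) (T : Finset V) : ℚ :=
  ∑ U ∈ T.powerset, (-1 / 2) ^ (T.card - U.card) / N U

/-- the numbers `N σ` have the properties (1)-(5) of the orders of the Coxeter groups `W_σ` of the
faces, `w e` being the weight of the edge `e`: (1) `N ∅ = 1`, (2) `N {v} = 2`, (3) `N e = 2 w e` for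
each edge `e`, (4) `N (A ∪ B) = N A * N B` if `A ∪ B` is a face and all edges between `A` and `B` have
weight `2`, (5) for each face `T` with at least three vertices which is connected by edges of weight
different from `2`, the number `b T` is zero if `|T|` is odd and has the sign `(-1)^j`, or is zero, if
`|T| = 2 j` -/
structure IsOrder {V : Type} [Fintype V] [DecidableEq V] (G : SimpleGraph V) (w : Finset V → ℕ)
    (N : Finset V → ℚ) : Prop where
  empty : N ∅ = 1
  vertex : ∀ v, N {v} = 2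
  edge : ∀ e ∈ faces G, e.card = 2 → N e = 2 * w e
  mul : ∀ A B : Finset V, Disjoint A B → A ∪ B ∈ faces G →
    (∀ a ∈ A, ∀ b ∈ B, w {a, b} = 2) → N (A ∪ B) = N A * N B
  sign : ∀ T ∈ faces G, 3 ≤ T.card →
    (∀ A ⊆ T, A.Nonempty → A ≠ T → ∃ a ∈ A, ∃ b ∈ T, b ∉ A ∧ w {a, b} ≠ 2) →
    (Odd T.card → bb N T = 0) ∧ ∀ j, T.card = 2 * j → 0 ≤ (-1) ^ j * bb N T

/-- the order `2^|σ| ∏ (w e / 2)` of the Coxeter group of `σ`, if the edges of `σ` of weight
`> 2` are pairwise disjoint -/
def ordW {V : Type} [DecidableEq V] (w : Finset V → ℕ) (σ : Finset V) : ℚ :=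
  2 ^ σ.card * ∏ e ∈ σ.powersetCard 2, (w e : ℚ) / 2

section

variable {V : Type} [Fintype V] [LinearOrder V] {G : SimpleGraph V}

theorem faces_eq : faces G = cl G Finset.univ := by
  ext T
  rw [mem_cl_univ, faces]
  simp only [Finset.mem_filter, Finset.mem_univ, true_and]

theorem ordW_empty (w : Finset V → ℕ) : ordW w ∅ = 1 := by
  have h0 : (∅ : Finset V).powersetCard 2 = ∅ := by
    rw [Finset.powersetCard_eq_empty]
    simp
  rw [ordW, h0]
  simp

theorem good {w : Finset V → ℕ} {N : Finset V → ℚ} (hw : ∀ e ∈ faces G, e.card = 2 → 2 ≤ w e)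
    (h : IsOrder G w N) : GoodOrders (cl G Finset.univ) N := by
  obtain ⟨h0, h1, h2, hmul, hsign⟩ := h
  rw [faces_eq] at *
  exact Y365.FS.goodOrders_of (fun T hT U hU => Pool.Agent.W497.FS.cl_of_subset hT hU) w hw N h0
    (fun v _ => h1 v) h2 hmul hsign

/-- the term of a face -/
theorem term {m : ℕ} (hS : HSph (2 * m) G) (hP : P (2 * m) G) {N : Finset V → ℚ}
    (hN : GoodOrders (cl G Finset.univ) N) {T : Finset V} (hT : T ∈ cl G Finset.univ)
    [Fintype ↥(lk G T)] :
    0 ≤ (-1) ^ m * ((-1) ^ T.card * bN N T * lam G (lkF G Finset.univ T)) ∧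
    ((-1) ^ m * ((-1) ^ T.card * bN N T * lam G (lkF G Finset.univ T)) = 0 ↔
      (bN N T ≠ 0 → ∀ i, L2Van (G.induce (lk G T)) i)) ∧
    (¬ (∀ i, L2Van (G.induce (lk G T)) i) →
      |bN N T| / 2 ^ (2 * m - T.card) ≤
        (-1) ^ m * ((-1) ^ T.card * bN N T * lam G (lkF G Finset.univ T))) := by
  have hcard := card_le_of_hSph hS T (mem_cl_univ.1 hT)
  obtain ⟨g1, g2⟩ := hN T hT
  rcases Nat.even_or_odd T.card with ⟨j, hj⟩ | ho
  · obtain ⟨l, hl⟩ : ∃ l, m = j + l := ⟨m - j, by omega⟩
    obtain ⟨k1, k2, k3⟩ := gap_lk hS hP T (mem_cl_univ.1 hT) l (by omega)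
    rw [lam_lk]
    have h1 := g2 j (by omega)
    have h4 : (-1 : ℚ) ^ T.card = 1 := by rw [hj]; exact Even.neg_one_pow ⟨j, rfl⟩
    have h3 : (-1 : ℚ) ^ m * ((-1) ^ T.card * bN N T * chiW (G.induce (lk G T))) =
        ((-1) ^ j * bN N T) * ((-1) ^ l * chiW (G.induce (lk G T))) := by
      rw [h4, hl, pow_add]
      ring
    rw [h3]
    refine ⟨mul_nonneg h1 k1, ?_, fun h5 => ?_⟩
    · rw [mul_eq_zero, mul_eq_zero, mul_eq_zero, or_iff_right (pow_ne_zero _ (by norm_num)),
        or_iff_right (pow_ne_zero _ (by norm_num)), k2]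
      tauto
    · have h6 := k3 h5
      have h7 : |bN N T| = (-1) ^ j * bN N T := by
        rw [← abs_of_nonneg h1, abs_mul, abs_pow, abs_neg, abs_one, one_pow, one_mul]
      have h8 : (2 : ℚ) ^ (2 * m - T.card) = 4 ^ l := by
        rw [show 2 * m - T.card = 2 * l by omega, pow_mul]
        norm_num
      rw [h7, h8, div_le_iff₀ (by positivity)]
      calc (-1 : ℚ) ^ j * bN N T = ((-1) ^ j * bN N T) * 1 := (mul_one _).symm
        _ ≤ ((-1) ^ j * bN N T) * (4 ^ l * ((-1) ^ l * chiW (G.induce (lk G T)))) :=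
            mul_le_mul_of_nonneg_left h6 h1
        _ = _ := by ring
  · rw [g1 ho]
    simp

open scoped Classical in
/-- the general form -/
theorem general {m : ℕ} (hS : HSph (2 * m) G) (hP : P (2 * m) G) {N : Finset V → ℚ}
    (hN : GoodOrders (cl G Finset.univ) N) (h0 : N ∅ = 1) :
    0 ≤ (-1) ^ m * chiW G ∧
    (-1) ^ m * chiW G ≤ (-1) ^ m * ∑ σ ∈ faces G, (-1) ^ σ.card / N σ ∧
    ∑ T ∈ (faces G).filter (fun T => ∃ i, ¬ L2Van (G.induce (lk G T)) i),
        |bb N T| / 2 ^ (2 * m - T.card) ≤ (-1) ^ m * ∑ σ ∈ faces G, (-1) ^ σ.card / N σ ∧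
    (∑ σ ∈ faces G, (-1) ^ σ.card / N σ = 0 ↔
      ∀ T ∈ faces G, bb N T ≠ 0 → ∀ i, L2Van (G.induce (lk G T)) i) := by
  rw [faces_eq]
  have hsum : (-1) ^ m * ∑ σ ∈ cl G Finset.univ, (-1) ^ σ.card / N σ =
      ∑ T ∈ cl G Finset.univ, (-1) ^ m * ((-1) ^ T.card * bN N T * lam G (lkF G Finset.univ T)) := by
    rw [weighted_eq, Finset.mul_sum]
  have hnn : ∀ T ∈ cl G Finset.univ,
      0 ≤ (-1) ^ m * ((-1) ^ T.card * bN N T * lam G (lkF G Finset.univ T)) := fun T hT =>
    (term hS hP hN hT).1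
  have hemp : (∅ : Finset V) ∈ cl G Finset.univ := Pool.Agent.W497.FS.empty_mem_cl
  have h1 : (-1) ^ m * ((-1) ^ (∅ : Finset V).card * bN N ∅ * lam G (lkF G Finset.univ ∅)) =
      (-1) ^ m * chiW G := by
    rw [lam_lk, chiW_congr lk_empty, chiW_univ]
    simp [bN, h0]
  refine ⟨?_, ?_, ?_, ?_⟩
  · rw [← h1]
    exact hnn ∅ hemp
  · rw [hsum, ← h1]
    exact Finset.single_le_sum hnn hemp
  · rw [hsum, Finset.sum_filter]
    refine Finset.sum_le_sum fun T hT => ?_
    split_ifs with h
    · exact (term hS hP hN hT).2.2 (by push Not; exact h)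
    · exact hnn T hT
  · have h2 : ∑ σ ∈ cl G Finset.univ, (-1) ^ σ.card / N σ = 0 ↔
        (-1) ^ m * ∑ σ ∈ cl G Finset.univ, (-1) ^ σ.card / N σ = 0 := by
      rw [mul_eq_zero, or_iff_right (pow_ne_zero _ (by norm_num))]
    rw [h2, hsum, Finset.sum_eq_zero_iff_of_nonneg hnn]
    exact forall₂_congr fun T hT => (term hS hP hN hT).2.1

end

open scoped Classical in
/-- Let `G` be the 1-skeleton of a flag real homology `(2 m - 1)`-sphere of the class `AM (2 m)`.
(1) Let `w e ≥ 2` be weights of the edges, and let `N σ` be the orders of the Coxeter groups `W_σ`, or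
any numbers with the properties (1)-(5) of `IsOrder`; `ω = ∑ (-1)^|σ| / N σ`.  Then
`(-1)^m ω` is at least the nonnegative number `(-1)^m chiW G` which belongs to the weights `2`; it is
at least the sum of the `|b T| / 2^(2 m - |T|)` over the faces `T` for which the right-angled Coxeter
group of the link of `T` has a nonzero `ℓ²`-Betti number; and `ω = 0` if and only if there is no such
face with `b T ≠ 0`.
(2) The same if in each face the edges of weight at least `3` are pairwise disjoint, `N σ` being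
the order `2^|σ| ∏ (w e / 2)` of `W_σ` (here no property of the orders is assumed). -/
theorem result (m : ℕ) {V : Type} [Fintype V] [LinearOrder V] (G : SimpleGraph V)
    (hS : HSph (2 * m) G) (hA : AM (2 * m) G) :
    (∀ (w : Finset V → ℕ) (N : Finset V → ℚ), (∀ e ∈ faces G, e.card = 2 → 2 ≤ w e) →
      IsOrder G w N →
      0 ≤ (-1) ^ m * chiW G ∧
      (-1) ^ m * chiW G ≤ (-1) ^ m * ∑ σ ∈ faces G, (-1) ^ σ.card / N σ ∧
      ∑ T ∈ (faces G).filter (fun T => ∃ i, ¬ L2Van (G.induce (lk G T)) i),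
          |bb N T| / 2 ^ (2 * m - T.card) ≤ (-1) ^ m * ∑ σ ∈ faces G, (-1) ^ σ.card / N σ ∧
      (∑ σ ∈ faces G, (-1) ^ σ.card / N σ = 0 ↔
        ∀ T ∈ faces G, bb N T ≠ 0 → ∀ i, L2Van (G.induce (lk G T)) i)) ∧
    ∀ w : Finset V → ℕ, (∀ e, 2 ≤ w e) →
      (∀ T ∈ faces G, ∀ u ∈ T, ∀ v ∈ T, ∀ z ∈ T, u ≠ v → u ≠ z → v ≠ z →
        w {u, v} = 2 ∨ w {u, z} = 2) →
      0 ≤ (-1) ^ m * chiW G ∧
      (-1) ^ m * chiW G ≤ (-1) ^ m * ∑ σ ∈ faces G, (-1) ^ σ.card / ordW w σ ∧
      ∑ T ∈ (faces G).filter (fun T => ∃ i, ¬ L2Van (G.induce (lk G T)) i),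
          |bb (ordW w) T| / 2 ^ (2 * m - T.card) ≤
            (-1) ^ m * ∑ σ ∈ faces G, (-1) ^ σ.card / ordW w σ ∧
      (∑ σ ∈ faces G, (-1) ^ σ.card / ordW w σ = 0 ↔
        ∀ T ∈ faces G, bb (ordW w) T ≠ 0 → ∀ i, L2Van (G.induce (lk G T)) i) := by
  refine ⟨fun w N hw hN => general hS (P_of_AM hA) (good hw hN) hN.empty, fun w hw hm => ?_⟩
  rw [faces_eq] at hm
  exact general hS (P_of_AM hA) (N := ordW w) (Y365.FS.goodOrders_ordM w hw hm)
    (ordW_empty w)

end Pool.Agent.Results.MP_375bfa_co.WeightsClassAM
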